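import Pool.Agent.Helper64.CF.Base
import Pool.Graph.R_pool_sql_team_seeded_63374d34.N792.TE2P

set_option autoImplicit false
set_option maxHeartbeats 4000000

/-!
# Products of two primes `x² + x + A`, for almost all `A` and `x` up to `A^(2-ε)`

For `N^(1/2 + ε) ≤ X ≤ N` and almost all odd `A ≤ X` the number of the arguments `x` for which `x² + x + A = p q` with
primes `p`, `q` and `y₁ < p ≤ y₂` is given by the formula which the heuristic of Hardy and Littlewood predicts, with the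
constant `C(Δ)` of Conjecture F, for all intervals `u < x ≤ v` (`u ≥ N / R`, `v ≤ N`) and all `y₁`, `y₂` with
`y₁ ≥ N^(3/2 + ε) / X`, `y₂ ≤ N^(1 - ε)`. So the number of the arguments may be as large as `A^(2-ε)`.

The proof is the theorem `Pool.Agent.N792.te2_m` of the starting library (helper792) on the polynomials `a m² + b m + c`,
`1 ≤ c ≤ C`, with `a = b = 1`. It is stated there as a hand-in only for the polynomials `n² + a`.
-/

namespace Pool.Agent.Results.MP_8be758_nt.ThinTwoPrimes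

open Finset Filter Topology

open Classical in
/-- The number of the `x`, `u < x ≤ v`, for which `x ^ 2 + x + A` is a product `p q` of two primes with `y₁ < p ≤ y₂`. -/
noncomputable def T (A u v y₁ y₂ : ℕ) : ℕ :=
  ((Ioc u v).filter (fun x : ℕ => ∃ p q : ℕ, p.Prime ∧ q.Prime ∧ y₁ < p ∧ p ≤ y₂ ∧ x ^ 2 + x + A = p * q)).card

/-- The product of the factors `1 - (Δ/p) / (p - 1)`, `Δ = 1 - 4 A`, over the odd primes `p ≤ z`. -/
noncomputable def C (A z : ℕ) : ℝ :=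
  ∏ p ∈ (Icc 3 z).filter Nat.Prime, (1 - (jacobiSym (1 - 4 * (A : ℤ)) p : ℝ) / ((p : ℝ) - 1))

/-- **Products of two primes `x² + x + A` for almost all odd `A ≤ X`, `N^(1/2+ε) ≤ X ≤ N`.** For all `ε > 0` and all
natural numbers `R`, `B`, for all large `N` and all `X` with `N^(1/2 + ε) ≤ X ≤ N`, all but at most `X / (log N)^B` of the
odd integers `3 ≤ A ≤ X` have the following property: the product `C(Δ)`, `Δ = 1 - 4 A`, converges to a number `K > 0`,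
and for all `u ≤ v ≤ N` with `u ≥ N / R` and all `y₁ ≤ y₂ ≤ N^(1-ε)` with `y₁ ≥ N^(3/2+ε) / X` the number `T` is
`2 K ∑_{u < x ≤ v} ∑_{y₁ < p ≤ y₂} 1 / (p log ((x² + x + A) / p))`, up to an error of at most `N / (log N)^B`. -/
theorem result (ε : ℝ) (hε : 0 < ε) (R B : ℕ) :
    ∃ N₀ : ℕ, ∀ N : ℕ, N₀ ≤ N → ∀ X : ℕ, (N : ℝ) ^ (1 / 2 + ε) ≤ X → X ≤ N →
    ∃ Bad : Finset ℕ, (Bad.card : ℝ) ≤ X / Real.log N ^ B ∧ ∀ A : ℕ, 3 ≤ A → A ≤ X → Odd A → A ∉ Bad →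
      ∃ K : ℝ, 0 < K ∧ Tendsto (fun z : ℕ => C A z) atTop (𝓝 K) ∧
        ∀ u v y₁ y₂ : ℕ, N ≤ R * u → u ≤ v → v ≤ N → (N : ℝ) ^ (3 / 2 + ε) ≤ X * y₁ → y₁ ≤ y₂ →
          (y₂ : ℝ) ≤ (N : ℝ) ^ (1 - ε) →
          |(T A u v y₁ y₂ : ℝ) - 2 * K * ∑ x ∈ Ioc u v, ∑ p ∈ (Ioc y₁ y₂).filter Nat.Prime,
            1 / ((p : ℝ) * Real.log (((x : ℝ) ^ 2 + x + A) / p))| ≤ N / Real.log N ^ B := by
  obtain ⟨x0, h9⟩ := Pool.Agent.N792.te2_m 1 one_pos 1 ε hε R B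
  refine ⟨x0, fun N hN X hX1 hX2 => ?_⟩
  obtain ⟨Ex, hE1, hE2, hE3⟩ := h9 N hN X hX1 hX2
  refine ⟨Ex, hE2, fun A hA3 hAX hAodd hAE => ?_⟩
  obtain ⟨S, hS0, hSt, hb⟩ := hE3 A (mem_Icc.2 ⟨by omega, hAX⟩) hAE (Pool.Agent.Helper64.CF.adm A hAodd)
  refine ⟨S, hS0, ?_, fun u v y₁ y₂ huN huv hvN hy1 hy12 hy2 => ?_⟩
  · refine hSt.congr fun z => ?_
    exact Pool.Agent.Helper64.CF.partialC_one' A z
  have k1 := hb u v y₁ y₂ huN huv hvN hy1 hy12 hy2
  rw [Pool.Agent.Helper64.CF.eps_one, Pool.Agent.Helper64.CF.gcdProd_one, mul_one] at k1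
  have hT : Pool.Agent.N792.twoC 1 1 (A : ℤ) u v y₁ y₂ = T A u v y₁ y₂ := by
    classical
    unfold Pool.Agent.N792.twoC T
    congr 1
    apply filter_congr
    intro m _
    have e : ∀ p q : ℕ, ((1 : ℤ) * (m : ℤ) ^ 2 + 1 * m + A = (p : ℤ) * q) ↔ m ^ 2 + m + A = p * q := by
      intro p q
      rw [one_mul, one_mul]
      constructor
      · intro h
        exact_mod_cast h
      · intro h
        exact_mod_cast h
    constructor
    · rintro ⟨p, q, h1, h2, h3, h4, h5⟩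
      exact ⟨p, q, h1, h2, h3, h4, (e p q).1 h5⟩
    · rintro ⟨p, q, h1, h2, h3, h4, h5⟩
      exact ⟨p, q, h1, h2, h3, h4, (e p q).2 h5⟩
  rw [hT] at k1
  have e3 : ∑ m ∈ Ioc u v, ∑ p ∈ (Ioc y₁ y₂).filter Nat.Prime,
      1 / ((p : ℝ) * Real.log ((((1 : ℤ) : ℝ) * (m : ℝ) ^ 2 + ((1 : ℤ) : ℝ) * m + ((A : ℕ) : ℝ)) / p)) =
      ∑ x ∈ Ioc u v, ∑ p ∈ (Ioc y₁ y₂).filter Nat.Prime,
        1 / ((p : ℝ) * Real.log (((x : ℝ) ^ 2 + x + A) / p)) := by
    apply sum_congr rfl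
    intro m _
    apply sum_congr rfl
    intro p _
    push_cast
    rw [one_mul, one_mul]
  rw [← e3]
  exact k1

end Pool.Agent.Results.MP_8be758_nt.ThinTwoPrimes
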